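import Pool.Agent.Helper53.PF.St

/-!
# Project PF (MP_ad0dc2_nt), module ABB
-/

set_option autoImplicit false

namespace PF.Helper39

open Polynomial PF

private theorem rho_id {R : Type} [CommRing R] (s z w κ n g : R)
    (h1 : 3 * s * w ^ 2 + s ^ 3 + 4 * z ^ 3 = 4 * n) (hκ : 3 * κ ^ 2 + 1 = 0)
    (hg : 3 * g = 4 * (n ^ 2 - (s * z) ^ 3)) :
    3 * ((s ^ 2 * w + κ * (s ^ 3 - 2 * n)) ^ 2 -
      2 * κ * (s ^ 3 - 2 * n) * (s ^ 2 * w + κ * (s ^ 3 - 2 * n)) - g) = 0 := by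
  linear_combination s ^ 3 * h1 - (s ^ 3 - 2 * n) ^ 2 * hκ - hg

private theorem D_id {R : Type} [CommRing R] (s z w κ n g P Q Pv PZ Qv QZ : R)
    (h1 : 3 * s * w ^ 2 + s ^ 3 + 4 * z ^ 3 = 4 * n) (hκ : 3 * κ ^ 2 + 1 = 0)
    (hg : 3 * g = 4 * (n ^ 2 - (s * z) ^ 3))
    (h3 : P = -(Q * (s ^ 2 * w + κ * (s ^ 3 - 2 * n)))) :
    3 * (3 * s ^ 3 * (4 * n - s ^ 3) * (2 * P * Pv + 2 * κ * P * Q +
        2 * κ * (s ^ 3 - 2 * n) * (Pv * Q + P * Qv) - 2 * g * Q * Qv) +
      2 * (2 * n - s ^ 3) * (s * z) * (2 * P * PZ + 2 * κ * (s ^ 3 - 2 * n) * (PZ * Q + P * QZ) +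
        4 * (s * z) ^ 2 * Q ^ 2 - 2 * g * Q * QZ) +
      s ^ 2 * w * (6 * s ^ 3 * (4 * n - s ^ 3) * (Q * Pv - P * Qv) +
        4 * (2 * n - s ^ 3) * (s * z) * (Q * PZ - P * QZ) +
        κ * (24 * n ^ 2 * Q ^ 2 - 9 * (2 * κ * (s ^ 3 - 2 * n)) * P * Q))) = 0 := by
  subst h3
  linear_combination
    ((6 * s ^ 3 * (4 * n - s ^ 3) * Q * Qv + 4 * (2 * n - s ^ 3) * (s * z) * Q * QZ
      - 6 * (s ^ 3 - 2 * n) * Q ^ 2) * s ^ 3) * h1 +
    (-(6 * s ^ 3 * (4 * n - s ^ 3) * Q * Qv + 4 * (2 * n - s ^ 3) * (s * z) * Q * QZ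
      - 6 * (s ^ 3 - 2 * n) * Q ^ 2) * (s ^ 3 - 2 * n) ^ 2 +
      3 * Q ^ 2 * (-6 * κ * (s ^ 3 - 2 * n) ^ 2 * (s ^ 2 * w + κ * (s ^ 3 - 2 * n))
        - 8 * (s ^ 3 - 2 * n) * n ^ 2
        + 6 * (s ^ 3 - 2 * n) * (s ^ 2 * w + κ * (s ^ 3 - 2 * n)) ^ 2)) * hκ +
    (-(6 * s ^ 3 * (4 * n - s ^ 3) * Q * Qv + 4 * (2 * n - s ^ 3) * (s * z) * Q * QZ
      - 6 * (s ^ 3 - 2 * n) * Q ^ 2) - 6 * (s ^ 3 - 2 * n) * Q ^ 2) * hg

private theorem V_id {R : Type} [CommRing R] (s z w κ n V s' z' Nv NZ G : R)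
    (h2 : V * w = (4 * n - s ^ 3) * z' + s ^ 2 * s' * z)
    (h4 : Nv * (3 * s ^ 2 * s') + NZ * (s' * z + s * z') = 0)
    (hD : 3 * s ^ 3 * (4 * n - s ^ 3) * Nv + 2 * (2 * n - s ^ 3) * (s * z) * NZ +
      s ^ 2 * w * G = 0) :
    s ^ 2 * w * (3 * s ^ 2 * V * NZ - G * (3 * s ^ 2 * s')) = 0 := by
  linear_combination 3 * s ^ 4 * NZ * h2 + 3 * s ^ 3 * (4 * n - s ^ 3) * h4 -
    3 * s ^ 2 * s' * hD

private theorem c2n {k : Type} [Field k] : (C (2 : k) : k[X]) = 2 := map_ofNat C 2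

private theorem c3n {k : Type} [Field k] : (C (3 : k) : k[X]) = 3 := map_ofNat C 3

private theorem c4n {k : Type} [Field k] : (C (4 : k) : k[X]) = 4 := map_ofNat C 4

private theorem c43 {k : Type} [Field k] [CharZero k] : (3 : k[X]) * C (4 / 3 : k) = 4 := by
  rw [← c3n, ← C_mul, show (3 : k) * (4 / 3) = 4 by norm_num, c4n]

private theorem nds {R : Type} [Ring R] {n : ℕ} {p q : R[X]} (hp : p.natDegree ≤ n)
    (hq : q.natDegree ≤ n) : (p - q).natDegree ≤ n :=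
  (natDegree_sub_le_of_le hp hq).trans (max_self n).le

private theorem ev_C {k : Type} [Field k] (v y a : k[X]) : ev v y (C a) = a.comp v := by
  simp [ev]

private theorem ev_X {k : Type} [Field k] (v y : k[X]) : ev v y X = y := by
  simp [ev]

private theorem ev_map {k : Type} [Field k] (v f : k[X]) : ev v X (f.map C) = f := by
  have h : ((compRingHom v).comp C : k →+* k[X]) = C := by
    ext a
    simp
  simp only [ev, coe_eval₂RingHom, eval₂_map, h]
  exact eval₂_C_X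

theorem holds_ABB : PF.StABB := by
  intro hCHN hTRC hDGB k _ _ κ n s z w hκ hc V V₀ V₁ V₂ hVw hV hd0 hd1 hd2 p q hpq hp hq hR
  obtain ⟨c1, c2, c3⟩ := hCHN k
  have hs0 : s ≠ 0 := by
    intro h
    have := hc.ds
    rw [h] at this
    simp at this
  have hw0 : w ≠ 0 := by
    intro h
    have := hc.dw
    rw [h] at this
    simp at this
  have h30 : (3 : k[X]) ≠ 0 := by
    rw [← c3n]
    exact C_ne_zero.2 (by norm_num)
  -- basic data in `k[X]`
  have hk : 3 * (C κ : k[X]) ^ 2 + 1 = 0 := by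
    have := congrArg (C : k → k[X]) hκ
    rwa [C_add, C_mul, C_pow, C_1, C_0, c3n] at this
  have e1 : 3 * s * w ^ 2 + s ^ 3 + 4 * z ^ 3 = 4 * C n := by
    rw [hc.eq, C_mul, c4n]
  have hg : 3 * (C (4 / 3 : k) * ((C n) ^ 2 - (s * z) ^ 3)) =
      4 * ((C n : k[X]) ^ 2 - (s * z) ^ 3) := by
    rw [← mul_assoc, c43]
  have e3 : ev (s ^ 3) (s * z) p =
      -(ev (s ^ 3) (s * z) q * (s ^ 2 * w + C κ * (s ^ 3 - 2 * C n))) := by
    rw [C_mul, c2n] at hR
    exact eq_neg_of_add_eq_zero_left hR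
  have e2 : V * w = (4 * C n - s ^ 3) * derivative z + s ^ 2 * derivative s * z := by
    rw [hVw, C_mul, c4n]
  have dv : derivative (s ^ 3) = 3 * s ^ 2 * derivative s := by
    rw [derivative_pow]
    norm_num [c3n]
  have dx : derivative (s * z) = derivative s * z + s * derivative z := derivative_mul
  have evN : ev (s ^ 3) (s * z) (N2 κ n p q) = (ev (s ^ 3) (s * z) p) ^ 2 +
      2 * C κ * (s ^ 3 - 2 * C n) * ev (s ^ 3) (s * z) p * ev (s ^ 3) (s * z) q -
      C (4 / 3 : k) * ((C n) ^ 2 - (s * z) ^ 3) * (ev (s ^ 3) (s * z) q) ^ 2 := by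
    simp only [N2, cV, g2, map_add, map_sub, map_mul, map_pow, ev_C, ev_X, mul_comp, sub_comp,
      C_comp, X_comp, C_mul, C_pow, c2n, ofNat_comp, Nat.cast_ofNat]
  have hN0 : ev (s ^ 3) (s * z) (N2 κ n p q) = 0 := by
    have h := rho_id s z w (C κ) (C n) _ e1 hk hg
    have h' := (mul_eq_zero.1 h).resolve_left h30
    rw [evN, e3]
    linear_combination (ev (s ^ 3) (s * z) q) ^ 2 * h'
  obtain ⟨d1, d2⟩ := hDGB k κ n p q
  have hN9 : (N2 κ n p q).natDegree ≤ 9 := d2.2 ⟨hp, hq⟩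
  have hNne : N2 κ n p q ≠ 0 := d1 hpq
  -- derivative in `Z`
  have evNZ : ev (s ^ 3) (s * z) (derivative (N2 κ n p q)) =
      2 * ev (s ^ 3) (s * z) p * ev (s ^ 3) (s * z) (derivative p) +
      2 * C κ * (s ^ 3 - 2 * C n) * (ev (s ^ 3) (s * z) (derivative p) * ev (s ^ 3) (s * z) q +
        ev (s ^ 3) (s * z) p * ev (s ^ 3) (s * z) (derivative q)) +
      4 * (s * z) ^ 2 * (ev (s ^ 3) (s * z) q) ^ 2 -
      2 * (C (4 / 3 : k) * ((C n) ^ 2 - (s * z) ^ 3)) * ev (s ^ 3) (s * z) q *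
        ev (s ^ 3) (s * z) (derivative q) := by
    have h43 : (C (4 / 3 : k) : k[X]) * 3 = 4 := by
      rw [mul_comm, c43]
    simp only [N2, cV, g2, derivative_add, derivative_sub, derivative_mul, derivative_C,
      derivative_X_pow, derivative_pow, map_add, map_sub, map_mul, map_pow, ev_C, ev_X, mul_comp,
      sub_comp, C_comp, X_comp, map_zero, map_natCast, Nat.cast_ofNat, map_ofNat, C_mul, C_pow,
      c2n, c3n, Nat.add_one_sub_one, pow_one, zero_mul, zero_add, zero_sub, map_neg, neg_mul,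
      map_one, mul_one, derivative_X, derivative_ofNat]
    linear_combination (s * z) ^ 2 * (ev (s ^ 3) (s * z) q) ^ 2 * h43
  -- the derivative of the relation
  have e4 : (2 * ev (s ^ 3) (s * z) p * ev (s ^ 3) (s * z) (dV p) +
        2 * C κ * ev (s ^ 3) (s * z) p * ev (s ^ 3) (s * z) q +
        2 * C κ * (s ^ 3 - 2 * C n) * (ev (s ^ 3) (s * z) (dV p) * ev (s ^ 3) (s * z) q +
          ev (s ^ 3) (s * z) p * ev (s ^ 3) (s * z) (dV q)) -
        2 * (C (4 / 3 : k) * ((C n) ^ 2 - (s * z) ^ 3)) * ev (s ^ 3) (s * z) q *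
          ev (s ^ 3) (s * z) (dV q)) * (3 * s ^ 2 * derivative s) +
      ev (s ^ 3) (s * z) (derivative (N2 κ n p q)) * (derivative s * z + s * derivative z) = 0 := by
    have h43 : (C (4 / 3 : k) : k[X]) * 3 = 4 := by
      rw [mul_comm, c43]
    have h := congrArg derivative hN0
    rw [evN] at h
    simp only [derivative_add, derivative_sub, derivative_mul, derivative_pow, c3, dv, dx,
      derivative_C, derivative_zero, derivative_ofNat, map_ofNat, Nat.cast_ofNat] at h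
    rw [evNZ]
    simp only [Nat.add_one_sub_one, pow_one, zero_mul, zero_add, zero_sub, c2n, c3n, mul_zero,
      sub_zero, add_zero] at h
    linear_combination h - (s * z) ^ 2 * (ev (s ^ 3) (s * z) q) ^ 2 *
      (derivative s * z + s * derivative z) * h43
  -- the polynomial `G`
  have hvd : (s ^ 3).natDegree = 9 := by
    rw [natDegree_pow, hc.ds]
  have hyd : (s * z).natDegree = 8 := by
    rw [natDegree_mul hs0 (by
      intro h
      have := hc.dz
      rw [h] at this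
      simp at this), hc.ds, hc.dz]
  obtain ⟨G, hG⟩ : ∃ G : k[X][X], G =
      C (6 * X * (4 * C n - X)) * (q * dV p - p * dV q) +
      C (4 * (2 * C n - X)) * (X * (q * derivative p - p * derivative q)) +
      (C (C κ * 24 * C n ^ 2) * q ^ 2 - C (C κ * 9 * (2 * C κ * (X - 2 * C n))) * (p * q)) :=
    ⟨_, rfl⟩
  have evG : ev (s ^ 3) (s * z) G =
      6 * s ^ 3 * (4 * C n - s ^ 3) * (ev (s ^ 3) (s * z) q * ev (s ^ 3) (s * z) (dV p) -
        ev (s ^ 3) (s * z) p * ev (s ^ 3) (s * z) (dV q)) +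
      4 * (2 * C n - s ^ 3) * (s * z) * (ev (s ^ 3) (s * z) q *
        ev (s ^ 3) (s * z) (derivative p) - ev (s ^ 3) (s * z) p *
        ev (s ^ 3) (s * z) (derivative q)) +
      C κ * (24 * C n ^ 2 * ev (s ^ 3) (s * z) q ^ 2 - 9 * (2 * C κ * (s ^ 3 - 2 * C n)) *
        ev (s ^ 3) (s * z) p * ev (s ^ 3) (s * z) q) := by
    rw [hG]
    simp only [map_add, map_sub, map_mul, map_pow, ev_C, ev_X, mul_comp, sub_comp,
      C_comp, X_comp, ofNat_comp, map_ofNat]
    ring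
  have hdp : (derivative p).natDegree ≤ 3 := (natDegree_derivative_le p).trans (by omega)
  have hdq : (derivative q).natDegree ≤ 2 := (natDegree_derivative_le q).trans (by omega)
  have hGd : G.natDegree ≤ 7 := by
    rw [hG]
    refine natDegree_add_le_of_degree_le (natDegree_add_le_of_degree_le ?_ ?_) ?_
    · refine (natDegree_C_mul_le _ _).trans (nds ?_ ?_)
      · exact (natDegree_mul_le_of_le hq ((c2 p).trans hp)).trans (by norm_num)
      · exact (natDegree_mul_le_of_le hp ((c2 q).trans hq)).trans (by norm_num)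
    · refine (natDegree_C_mul_le _ _).trans ?_
      refine (natDegree_mul_le_of_le natDegree_X_le (nds (n := 6) ?_ ?_)).trans
        (by norm_num)
      · exact (natDegree_mul_le_of_le hq hdp).trans (by norm_num)
      · exact (natDegree_mul_le_of_le hp hdq).trans (by norm_num)
    · refine nds ?_ ?_
      · refine (natDegree_C_mul_le _ _).trans ((natDegree_pow_le_of_le 2 hq).trans (by norm_num))
      · exact (natDegree_C_mul_le _ _).trans ((natDegree_mul_le_of_le hp hq).trans (by norm_num))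
  -- the polynomial `H`
  have hsd : (s ^ 2).natDegree ≤ 6 := by
    rw [natDegree_pow, hc.ds]
  have hA : (3 * s ^ 2 * V₀).natDegree ≤ 8 := by
    rw [mul_assoc, ← c3n]
    exact (natDegree_C_mul_le _ _).trans (natDegree_mul_le_of_le hsd hd0)
  have hB : (3 * (V₁ + V₂ * s)).natDegree ≤ 4 := by
    rw [← c3n]
    refine (natDegree_C_mul_le _ _).trans (natDegree_add_le_of_degree_le (hd1.trans (by norm_num)) ?_)
    exact natDegree_mul_le_of_le hd2 hc.ds.le
  obtain ⟨H, hH⟩ : ∃ H : k[X][X], H = (3 * s ^ 2 * V₀).map C + C X * (3 * (V₁ + V₂ * s)).map C :=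
    ⟨_, rfl⟩
  have hHd : H.natDegree ≤ 8 := by
    rw [hH]
    refine natDegree_add_le_of_degree_le (natDegree_map_le.trans hA) ?_
    exact (natDegree_C_mul_le _ _).trans (natDegree_map_le.trans (hB.trans (by norm_num)))
  have evH : ev (s ^ 3) X H = 3 * s ^ 2 * V := by
    rw [hH, map_add, map_mul, ev_map, ev_map, ev_C, X_comp, hV]
    ring
  -- the identity
  have hD := D_id s z w (C κ) (C n) _ (ev (s ^ 3) (s * z) p) (ev (s ^ 3) (s * z) q)
    (ev (s ^ 3) (s * z) (dV p)) (ev (s ^ 3) (s * z) (derivative p))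
    (ev (s ^ 3) (s * z) (dV q)) (ev (s ^ 3) (s * z) (derivative q)) e1 hk hg e3
  have hD' := (mul_eq_zero.1 hD).resolve_left h30
  rw [← evG, ← evNZ] at hD'
  have hfin := V_id s z w (C κ) (C n) V (derivative s) (derivative z) _ _ _ e2 e4 hD'
  have hsw : s ^ 2 * w ≠ 0 := mul_ne_zero (pow_ne_zero 2 hs0) hw0
  have hfin' := sub_eq_zero.1 ((mul_eq_zero.1 hfin).resolve_left hsw)
  obtain ⟨f1, f2⟩ := hTRC k 9 (s ^ 3) (s * z) (N2 κ n p q) G H (by norm_num) hvd
    (by rw [hyd]; norm_num) hNne hN9 hN0 (by omega) (by omega) (by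
      rw [evH, dv]
      exact hfin')
  have hG8 : G.coeff (9 - 1) = 0 := coeff_eq_zero_of_natDegree_lt (by omega)
  rw [hG8, mul_zero] at f2
  have hH8 := (mul_eq_zero.1 f2).resolve_right f1
  have hc8 : H.coeff (9 - 1) = C (3 * s.leadingCoeff ^ 2 * V₀.coeff 2) := by
    rw [hH, coeff_add, coeff_C_mul, coeff_map, coeff_map,
      coeff_eq_zero_of_natDegree_lt (p := 3 * (V₁ + V₂ * s)) (by omega), C_0, mul_zero, add_zero]
    congr 1
    rw [mul_assoc, ← c3n, coeff_C_mul, show 9 - 1 = 6 + 2 from rfl,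
      coeff_mul_add_eq_of_natDegree_le hsd hd0, mul_assoc]
    congr 2
    have : (6 : ℕ) = (s ^ 2).natDegree := by rw [natDegree_pow, hc.ds]
    rw [this, coeff_natDegree, leadingCoeff_pow]
  rw [hc8, C_eq_zero] at hH8
  have hl : (3 : k) * s.leadingCoeff ^ 2 ≠ 0 :=
    mul_ne_zero (by norm_num) (pow_ne_zero 2 (leadingCoeff_ne_zero.2 hs0))
  exact (mul_eq_zero.1 hH8).resolve_left hl

end PF.Helper39
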